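import Mathlib

/-!
# Linear orders at the vertices with a parity condition: greedy selection

`s v x y = true` means that `x` precedes `y` in the linear order at `v`.
-/

namespace H83XR

open Finset

variable {α : Type*} [LinearOrder α]

/-- The axioms: every vertex has a strict linear order on the other vertices, and the parity rule. -/
structure Sys (s : α → α → α → Bool) : Prop where
  anti : ∀ v x y, x ≠ v → y ≠ v → x ≠ y → s v x y = !s v y x
  trans : ∀ v x y z, x ≠ v → y ≠ v → z ≠ v → x ≠ y → y ≠ z → x ≠ z →
    s v x y = true → s v y z = true → s v x z = true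
  par : ∀ a b c, a < b → b < c → (s a b c ^^ (s b a c ^^ s c a b)) = true

/-- The signs of a triple depend only on its first two vertices. -/
def Inv (s : α → α → α → Bool) (P R : Finset α) : Prop :=
  (∀ a ∈ P, ∀ c ∈ R, a < c) ∧ ∀ a ∈ P, ∀ b ∈ P, a < b → ∀ c ∈ P ∪ R, ∀ c' ∈ P ∪ R,
    b < c → b < c' → s a b c = s a b c' ∧ s b a c = s b a c' ∧ s c a b = s c' a b

theorem Inv.mono {s : α → α → α → Bool} {P R R' : Finset α} (h : Inv s P R) (hR : R' ⊆ R) :
    Inv s P R' :=
  ⟨fun a ha c hc => h.1 a ha c (hR hc), fun a ha b hb hab c hc c' hc' =>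
    h.2 a ha b hb hab c (union_subset_union_right hR hc) c' (union_subset_union_right hR hc')⟩

theorem filter_eq_of_card {P : Finset α} {p q : α → Bool}
    (h : (P.filter (fun a => p a = true)).card = (P.filter (fun a => q a = true)).card)
    (hn : ∀ a ∈ P, ∀ b ∈ P, p a = true → q a = false → q b = true → p b = false → False) :
    ∀ a ∈ P, p a = q a := by
  classical
  have hsub : P.filter (fun a => p a = true) ⊆ P.filter (fun a => q a = true) ∨
      P.filter (fun a => q a = true) ⊆ P.filter (fun a => p a = true) := by
    by_contra hcon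
    push Not at hcon
    obtain ⟨h1, h2⟩ := hcon
    obtain ⟨a, ha1, ha2⟩ := not_subset.1 h1
    obtain ⟨b, hb1, hb2⟩ := not_subset.1 h2
    rw [mem_filter] at ha1 ha2 hb1 hb2
    refine hn a ha1.1 b hb1.1 ha1.2 ?_ hb1.2 ?_
    · cases hq : q a
      · rfl
      · exact absurd ⟨ha1.1, hq⟩ ha2
    · cases hp : p b
      · rfl
      · exact absurd ⟨hb1.1, hp⟩ hb2
  have heq : P.filter (fun a => p a = true) = P.filter (fun a => q a = true) := by
    rcases hsub with h1 | h1
    · exact eq_of_subset_of_card_le h1 h.ge
    · exact (eq_of_subset_of_card_le h1 h.le).symm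
  intro a ha
  have h1 := Finset.ext_iff.1 heq a
  simp only [mem_filter, ha, true_and] at h1
  cases hp : p a <;> cases hq : q a
  · rfl
  · rw [hp, hq] at h1; simp at h1
  · rw [hp, hq] at h1; simp at h1
  · rfl

theorem inv_step {s : α → α → α → Bool} (hs : Sys s) {P R R2 : Finset α} {x : α}
    (h : Inv s P R) (hxR : x ∈ R) (hR2 : ∀ c ∈ R2, c ∈ R ∧ x < c)
    (hkey : ∀ c ∈ R2, ∀ c' ∈ R2,
      (P.filter (fun a => s x a c = true)).card = (P.filter (fun a => s x a c' = true)).card ∧
      (P.filter (fun a => s c a x = true)).card = (P.filter (fun a => s c' a x = true)).card) :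
    Inv s (insert x P) R2 := by
  have hPx : ∀ a ∈ P, a < x := fun a ha => h.1 a ha x hxR
  refine ⟨?_, ?_⟩
  · intro a ha c hc
    rcases mem_insert.1 ha with rfl | ha
    · exact (hR2 c hc).2
    · exact (hPx a ha).trans (hR2 c hc).2
  · intro a ha b hb hab c hc c' hc' hbc hbc'
    have hsub : ∀ d ∈ insert x P ∪ R2, d ∈ P ∪ R := by
      intro d hd
      rcases mem_union.1 hd with hd | hd
      · rcases mem_insert.1 hd with rfl | hd
        · exact mem_union_right _ hxR
        · exact mem_union_left _ hd
      · exact mem_union_right _ (hR2 d hd).1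
    rcases mem_insert.1 hb with rfl | hbP
    · -- b = x
      have haP : a ∈ P := by
        rcases mem_insert.1 ha with rfl | ha
        · exact absurd hab (lt_irrefl _)
        · exact ha
      have hin : ∀ d ∈ insert b P ∪ R2, b < d → d ∈ R2 := by
        intro d hd hbd
        rcases mem_union.1 hd with hd | hd
        · rcases mem_insert.1 hd with rfl | hd
          · exact absurd hbd (lt_irrefl _)
          · exact absurd hbd (not_lt.2 (hPx d hd).le)
        · exact hd
      have hc2 := hin c hc hbc
      have hc2' := hin c' hc' hbc'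
      obtain ⟨k1, k2⟩ := hkey c hc2 c' hc2'
      have e1 : s b a c = s b a c' := by
        refine filter_eq_of_card (p := fun a => s b a c) (q := fun a => s b a c') k1 ?_ a haP
        intro d hd e he h1 h2 h3 h4
        -- d < c, not d < c', e < c', not e < c in the order at b
        have hdb := (hPx d hd).ne
        have heb := (hPx e he).ne
        have hdc := ((hPx d hd).trans hbc).ne
        have hdc' := ((hPx d hd).trans hbc').ne
        have hec := ((hPx e he).trans hbc).ne
        have hec' := ((hPx e he).trans hbc').ne
        have hcc' : c ≠ c' := by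
          rintro rfl
          rw [h1] at h2
          exact absurd h2 (by simp)
        have a1 : s b c' d = true := by
          have := hs.anti b d c' hdb hbc'.ne' hdc'
          rw [h2] at this
          simpa using this.symm
        have a2 : s b c e = true := by
          have := hs.anti b e c heb hbc.ne' hec
          rw [h4] at this
          simpa using this.symm
        have a3 : s b c' c = true :=
          hs.trans b c' d c hbc'.ne' hdb hbc.ne' hdc'.symm hdc hcc'.symm a1 h1
        have a4 : s b c c' = true :=
          hs.trans b c e c' hbc.ne' heb hbc'.ne' hec.symm hec' hcc' a2 h3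
        have := hs.anti b c c' hbc.ne' hbc'.ne' hcc'
        rw [a3, a4] at this
        exact absurd this (by simp)
      have e2 : s c a b = s c' a b := by
        refine filter_eq_of_card (p := fun a => s c a b) (q := fun a => s c' a b) k2 ?_ a haP
        intro d hd e he h1 h2 h3 h4
        have hdb := (hPx d hd).ne
        have heb := (hPx e he).ne
        have hdc := ((hPx d hd).trans hbc).ne
        have hdc' := ((hPx d hd).trans hbc').ne
        have hec := ((hPx e he).trans hbc).ne
        have hec' := ((hPx e he).trans hbc').ne
        have hde : d ≠ e := by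
          rintro rfl
          rw [h1] at h4
          exact absurd h4 (by simp)
        -- order at c : d < b < e
        have a1 : s c b e = true := by
          have := hs.anti c e b hec hbc.ne heb
          rw [h4] at this
          simpa using this.symm
        have a2 : s c d e = true := hs.trans c d b e hdc hbc.ne hec hdb heb.symm hde h1 a1
        -- order at c' : e < b < d
        have a3 : s c' b d = true := by
          have := hs.anti c' d b hdc' hbc'.ne hdb
          rw [h2] at this
          simpa using this.symm
        have a4 : s c' e d = true :=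
          hs.trans c' e b d hec' hbc'.ne hdc' heb hdb.symm hde.symm h3 a3
        have hcPR := hsub c hc
        have hcPR' := hsub c' hc'
        rcases lt_or_gt_of_ne hde with hlt | hgt
        · have := (h.2 d hd e he hlt c hcPR c' hcPR' ((hPx e he).trans hbc)
            ((hPx e he).trans hbc')).2.2
          have h5 := hs.anti c' d e hdc' hec' hde
          rw [a4, ← this, a2] at h5
          exact absurd h5 (by simp)
        · have := (h.2 e he d hd hgt c hcPR c' hcPR' ((hPx d hd).trans hbc)
            ((hPx d hd).trans hbc')).2.2
          have h5 := hs.anti c d e hdc hec hde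
          rw [this, a4, a2] at h5
          exact absurd h5 (by simp)
      refine ⟨?_, e1, e2⟩
      have p1 := hs.par a b c hab hbc
      have p2 := hs.par a b c' hab hbc'
      rw [e1, e2] at p1
      revert p1 p2
      cases s a b c <;> cases s a b c' <;> cases s b a c' <;> cases s c' a b <;> simp
    · have haP : a ∈ P := by
        rcases mem_insert.1 ha with rfl | ha
        · exact absurd hab (not_lt.2 (hPx b hbP).le)
        · exact ha
      exact h.2 a haP b hbP hab c (hsub c hc) c' (hsub c' hc') hbc hbc'

theorem greedy {s : α → α → α → Bool} (hs : Sys s) (t : ℕ) : ∀ P R : Finset α, Inv s P R →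
    (P.card + t + 1) ^ (2 * t) ≤ R.card → ∃ Q ⊆ R, Q.card = t ∧ Inv s (P ∪ Q) ∅ := by
  induction t with
  | zero =>
    intro P R h _
    exact ⟨∅, empty_subset _, rfl, by simpa using h.mono (empty_subset _)⟩
  | succ t ih =>
    intro P R h hR
    have hpos : 0 < R.card := lt_of_lt_of_le (by positivity) hR
    have hne : R.Nonempty := card_pos.1 hpos
    set x := R.min' hne with hx
    have hxR : x ∈ R := R.min'_mem hne
    have hxlt : ∀ c ∈ R.erase x, x < c := by
      intro c hc
      rw [mem_erase] at hc
      exact lt_of_le_of_ne (R.min'_le c hc.2) (Ne.symm hc.1)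
    set k := P.card with hk
    set key : α → ℕ × ℕ := fun c => ((P.filter (fun a => s x a c = true)).card,
      (P.filter (fun a => s c a x = true)).card) with hkeydef
    have hmaps : ∀ c ∈ R.erase x, key c ∈ range (k + 1) ×ˢ range (k + 1) := by
      intro c _
      rw [mem_product, mem_range, mem_range]
      exact ⟨Nat.lt_succ_of_le (card_filter_le _ _), Nat.lt_succ_of_le (card_filter_le _ _)⟩
    have hcard : (range (k + 1) ×ˢ range (k + 1)).card * (k + 1 + t + 1) ^ (2 * t) ≤
        (R.erase x).card := by
      rw [card_product, card_range, card_erase_of_mem hxR]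
      have h1 : (k + (t + 1) + 1) ^ (2 * (t + 1)) =
          (k + 1 + t + 1) ^ (2 * t) * (k + 1 + t + 1) ^ 2 := by
        rw [← pow_add]
        congr 1; ring
      rw [h1] at hR
      have h2 : 1 ≤ (k + 1 + t + 1) ^ (2 * t) := Nat.one_le_pow _ _ (by omega)
      have h3 : (k + 1) * (k + 1) + 1 ≤ (k + 1 + t + 1) ^ 2 := by
        have h31 : (k + 2) ^ 2 ≤ (k + 1 + t + 1) ^ 2 := Nat.pow_le_pow_left (by omega) 2
        have h32 : (k + 1) * (k + 1) + 1 ≤ (k + 2) ^ 2 := by ring_nf; omega
        exact h32.trans h31
      have h4 := Nat.mul_le_mul_left ((k + 1 + t + 1) ^ (2 * t)) h3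
      have h5 : (k + 1 + t + 1) ^ (2 * t) * ((k + 1) * (k + 1) + 1) =
          (k + 1) * (k + 1) * (k + 1 + t + 1) ^ (2 * t) + (k + 1 + t + 1) ^ (2 * t) := by ring
      omega
    obtain ⟨kk, -, hkk⟩ := Finset.exists_le_card_fiber_of_mul_le_card_of_maps_to hmaps
      (by simp) hcard
    set R2 := (R.erase x).filter (fun c => key c = kk) with hR2def
    have hR2 : ∀ c ∈ R2, c ∈ R ∧ x < c := by
      intro c hc
      rw [hR2def, mem_filter] at hc
      exact ⟨mem_of_mem_erase hc.1, hxlt c hc.1⟩
    have hInv : Inv s (insert x P) R2 := by
      refine inv_step hs h hxR hR2 ?_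
      intro c hc c' hc'
      rw [hR2def, mem_filter] at hc hc'
      have h1 : key c = key c' := by rw [hc.2, hc'.2]
      exact ⟨congrArg Prod.fst h1, congrArg Prod.snd h1⟩
    have hxP : x ∉ P := fun hxP => lt_irrefl _ (h.1 x hxP x hxR)
    obtain ⟨Q, hQ1, hQ2, hQ3⟩ := ih (insert x P) R2 hInv (by
      rw [card_insert_of_notMem hxP]
      exact hkk)
    have hxQ : x ∉ Q := fun hxQ => lt_irrefl _ (hR2 x (hQ1 hxQ)).2
    refine ⟨insert x Q, ?_, ?_, ?_⟩
    · intro c hc
      rcases mem_insert.1 hc with rfl | hc
      · exact hxR
      · exact (hR2 c (hQ1 hc)).1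
    · rw [card_insert_of_notMem hxQ, hQ2]
    · rw [union_insert, ← insert_union]
      exact hQ3

end H83XR
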