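import Mathlib
import Pool.Agent.H83XR.Greedy

/-!
# Extraction of a good set from an invariant set of vertices
-/

namespace H83XR

open Finset

variable {α : Type*} [LinearOrder α]

/-- A transitive relation contained in a linear order has a large chain or a large antichain. -/
theorem chain_or_antichain {ρ : α → α → Prop} (hlt : ∀ a b, ρ a b → a < b)
    (htr : ∀ a b c, ρ a b → ρ b c → ρ a c) (F : Finset α) (m : ℕ) (hF : m * m < F.card) :
    (∃ C ⊆ F, C.card = m + 1 ∧ ∀ a ∈ C, ∀ b ∈ C, a < b → ρ a b) ∨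
    (∃ C ⊆ F, C.card = m + 1 ∧ ∀ a ∈ C, ∀ b ∈ C, a < b → ¬ ρ a b) := by
  classical
  by_contra hcon
  push Not at hcon
  obtain ⟨hc1, hc2⟩ := hcon
  -- chains ending at x
  let Ch : α → Finset (Finset α) := fun x => F.powerset.filter
    (fun C => x ∈ C ∧ (∀ a ∈ C, a ≤ x) ∧ ∀ a ∈ C, ∀ b ∈ C, a < b → ρ a b)
  let h : α → ℕ := fun x => (Ch x).sup Finset.card
  have hle : ∀ x, h x ≤ m := by
    intro x
    refine Finset.sup_le ?_
    intro C hC
    by_contra hlt'
    push Not at hlt'
    rw [mem_filter, mem_powerset] at hC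
    obtain ⟨D, hD1, hD2⟩ := Finset.exists_subset_card_eq (show m + 1 ≤ C.card from hlt')
    obtain ⟨a, ha, b, hb, hab, hn⟩ := hc1 D (hD1.trans hC.1) hD2
    exact hn (hC.2.2.2 a (hD1 ha) b (hD1 hb) hab)
  have hpos : ∀ x ∈ F, 1 ≤ h x := by
    intro x hx
    have : ({x} : Finset α) ∈ Ch x := by
      rw [mem_filter, mem_powerset]
      refine ⟨by simpa using hx, by simp, by simp, ?_⟩
      intro a ha b hb hab
      rw [mem_singleton] at ha hb
      rw [ha, hb] at hab
      exact absurd hab (lt_irrefl _)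
    have h1 := Finset.le_sup (f := Finset.card) this
    rw [card_singleton] at h1
    exact h1
  have hstep : ∀ x ∈ F, ∀ y ∈ F, ρ x y → h x + 1 ≤ h y := by
    intro x hx y hy hxy
    have hne : (Ch x).Nonempty := by
      refine ⟨{x}, ?_⟩
      rw [mem_filter, mem_powerset]
      refine ⟨by simpa using hx, by simp, by simp, ?_⟩
      intro a ha b hb hab
      rw [mem_singleton] at ha hb
      rw [ha, hb] at hab
      exact absurd hab (lt_irrefl _)
    obtain ⟨C, hC, hCs⟩ := Finset.exists_mem_eq_sup (Ch x) hne Finset.card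
    rw [mem_filter, mem_powerset] at hC
    have hyC : y ∉ C := fun hyC => absurd (hC.2.2.1 y hyC) (not_le.2 (hlt _ _ hxy))
    have hmem : insert y C ∈ Ch y := by
      rw [mem_filter, mem_powerset]
      refine ⟨insert_subset hy hC.1, mem_insert_self _ _, ?_, ?_⟩
      · intro a ha
        rcases mem_insert.1 ha with rfl | ha
        · exact le_rfl
        · exact (hC.2.2.1 a ha).trans (hlt _ _ hxy).le
      · intro a ha b hb hab
        rcases mem_insert.1 ha with ha1 | ha1
        · rcases mem_insert.1 hb with hb1 | hb1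
          · rw [ha1, hb1] at hab
            exact absurd hab (lt_irrefl _)
          · rw [ha1] at hab
            exact absurd (hab.trans_le (hC.2.2.1 b hb1)) (not_lt.2 (hlt _ _ hxy).le)
        · rcases mem_insert.1 hb with hb1 | hb1
          · rw [hb1]
            rcases (hC.2.2.1 a ha1).lt_or_eq with h1 | h1
            · exact htr _ _ _ (hC.2.2.2 a ha1 x hC.2.1 h1) hxy
            · rw [h1]; exact hxy
          · exact hC.2.2.2 a ha1 b hb1 hab
    have h1 := Finset.le_sup (f := Finset.card) hmem
    rw [card_insert_of_notMem hyC] at h1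
    change (Ch x).sup Finset.card + 1 ≤ _
    rw [hCs]
    exact h1
  have hmaps : ∀ x ∈ F, h x ∈ Finset.Icc 1 m := by
    intro x hx
    rw [mem_Icc]
    exact ⟨hpos x hx, hle x⟩
  obtain ⟨v, -, hv⟩ := Finset.exists_lt_card_fiber_of_mul_lt_card_of_maps_to (n := m) hmaps
    (by simpa using hF)
  obtain ⟨D, hD1, hD2⟩ := Finset.exists_subset_card_eq (show m + 1 ≤ _ from hv)
  obtain ⟨a, ha, b, hb, hab, hn⟩ := hc2 D (hD1.trans (filter_subset _ _)) hD2
  have ha' := hD1 ha
  have hb' := hD1 hb
  rw [mem_filter] at ha' hb'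
  have := hstep a ha'.1 b hb'.1 hn
  omega

/-- Orientation of `x, y, z` around `v`. -/
def chi (s : α → α → α → Bool) (v x y z : α) : Bool := s v x y ^^ (s v y z ^^ s v x z)

/-- The alternating sign pattern (planar quadruples). -/
def Alt (s : α → α → α → Bool) (i j k l : α) : Prop :=
  chi s i j k l ≠ chi s j i k l ∧ chi s j i k l ≠ chi s k i j l ∧ chi s k i j l ≠ chi s l i j k

theorem extract {s : α → α → α → Bool} (hs : Sys s) (T : Finset α) (hT : Inv s T ∅) (L m : ℕ)
    (hL : T.card ≤ 2 ^ L) (hcard : (L + 1) * (m * m) + 1 < T.card) :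
    ∃ S ⊆ T, S.card = m + 2 ∧ ∀ i ∈ S, ∀ j ∈ S, ∀ k ∈ S, ∀ l ∈ S, i < j → j < k → k < l →
      ¬ Alt s i j k l := by
  classical
  have hne : T.Nonempty := card_pos.1 (by omega)
  set w := T.max' hne with hw
  have hwT : w ∈ T := T.max'_mem hne
  have hwlt : ∀ c ∈ T.erase w, c < w := by
    intro c hc
    rw [mem_erase] at hc
    exact lt_of_le_of_ne (T.le_max' c hc.2) hc.1
  have hinv : ∀ a ∈ T, ∀ b ∈ T, a < b → ∀ c ∈ T, ∀ c' ∈ T,
      b < c → b < c' → s a b c = s a b c' ∧ s b a c = s b a c' ∧ s c a b = s c' a b := by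
    intro a ha b hb hab c hc c' hc' h1 h2
    exact hT.2 a ha b hb hab c (mem_union_left _ hc) c' (mem_union_left _ hc') h1 h2
  set T' := T.erase w with hT'
  have hT'card : T'.card + 1 = T.card := card_erase_add_one hwT
  -- positions
  set y : α → ℕ := fun i => (T'.filter (fun j => s w j i = true ∧ j ≠ i)).card with hy
  have hylt : ∀ i ∈ T', ∀ k ∈ T', i ≠ k → (s w i k = true → y i < y k) := by
    intro i hi k hk hik h1
    have hiw := (hwlt i hi).ne
    have hkw := (hwlt k hk).ne
    refine card_lt_card ?_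
    rw [Finset.ssubset_iff_of_subset]
    · refine ⟨i, ?_, ?_⟩
      · rw [mem_filter]; exact ⟨hi, h1, hik⟩
      · rw [mem_filter]; exact fun h2 => h2.2.2 rfl
    · intro j hj
      rw [mem_filter] at hj ⊢
      have hjw := (hwlt j hj.1).ne
      have hjk : j ≠ k := by
        rintro rfl
        have := hs.anti w j i hjw hiw hj.2.2
        rw [hj.2.1, h1] at this
        exact absurd this (by simp)
      exact ⟨hj.1, hs.trans w j i k hjw hiw hkw hj.2.2 hik hjk hj.2.1 h1, hjk⟩
  have hyiff : ∀ i ∈ T', ∀ k ∈ T', i ≠ k → (s w i k = true ↔ y i < y k) := by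
    intro i hi k hk hik
    refine ⟨hylt i hi k hk hik, ?_⟩
    intro h1
    by_contra h2
    have h3 := hs.anti w i k (hwlt i hi).ne (hwlt k hk).ne hik
    have h4 : s w k i = true := by
      cases h5 : s w k i
      · rw [h5] at h3; exact absurd h3 h2
      · rfl
    have := hylt k hk i hi hik.symm h4
    omega
  have hyL : ∀ i, y i < 2 ^ L := by
    intro i
    have : y i ≤ T'.card := card_filter_le _ _
    omega
  set u : α → ℕ := fun k => (T'.filter (fun i => i < k ∧ s k i w = true)).sup y with hu
  have huL : ∀ k, u k < 2 ^ L := by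
    intro k
    rw [hu]
    refine (Finset.sup_lt_iff (by simp)).2 ?_
    intro b _
    exact hyL b
  have hq : ∀ i ∈ T', ∀ k ∈ T', i < k → s k i w = true → y i ≤ u k := by
    intro i hi k _ hik h1
    exact Finset.le_sup (f := y) (mem_filter.2 ⟨hi, hik, h1⟩)
  have hq2 : ∀ i ∈ T', ∀ k ∈ T', i < k → y k < y i → y i ≤ u k → s k i w = true := by
    intro i hi k hk hik h1 h2
    have hne2 : (T'.filter (fun i => i < k ∧ s k i w = true)).Nonempty := by
      by_contra hcon
      rw [not_nonempty_iff_eq_empty] at hcon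
      have : u k = 0 := by
        rw [hu]; simp only [hcon]; rfl
      omega
    obtain ⟨i0, hi0, hi0s⟩ := Finset.exists_mem_eq_sup _ hne2 y
    have hu0 : u k = y i0 := hi0s
    rw [mem_filter] at hi0
    by_cases hii : i = i0
    · rw [hii]; exact hi0.2.2
    · have h3 : y i ≤ y i0 := by omega
      have h4 : s w i i0 = true := by
        rw [hyiff i hi i0 hi0.1 hii]
        rcases h3.lt_or_eq with h5 | h5
        · exact h5
        · exfalso
          have h6 := hs.anti w i i0 (hwlt i hi).ne (hwlt i0 hi0.1).ne hii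
          cases h7 : s w i i0
          · rw [h7] at h6
            have h8 : s w i0 i = true := by simpa using h6.symm
            have := hylt i0 hi0.1 i hi (Ne.symm hii) h8
            omega
          · have := hylt i hi i0 hi0.1 hii h7
            omega
      have hkT := mem_of_mem_erase hk
      have hiT := mem_of_mem_erase hi
      have hi0T := mem_of_mem_erase hi0.1
      have h5 : s k i i0 = true := by
        rcases lt_or_gt_of_ne hii with hlt | hgt
        · rw [← h4]
          exact (hinv i hiT i0 hi0T hlt k hkT w hwT hi0.2.1 (hwlt i0 hi0.1)).2.2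
        · have h6 := (hinv i0 hi0T i hiT hgt k hkT w hwT hik (hwlt i hi)).2.2
          rw [hs.anti k i i0 hik.ne hi0.2.1.ne hii, h6,
            ← hs.anti w i i0 (hwlt i hi).ne (hwlt i0 hi0.1).ne hii]
          exact h4
      exact hs.trans k i i0 w hik.ne hi0.2.1.ne (hwlt k hk).ne' hii (hwlt i0 hi0.1).ne
        (hwlt i hi).ne h5 hi0.2.2
  -- levels
  have hex : ∀ k, ∃ h, u k / 2 ^ h ≤ y k / 2 ^ h := by
    intro k
    exact ⟨L, by rw [Nat.div_eq_of_lt (huL k)]; exact Nat.zero_le _⟩
  set lev : α → ℕ := fun k => Nat.find (hex k) with hlev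
  have hlevL : ∀ k ∈ T', lev k ∈ range (L + 1) := by
    intro k _
    rw [mem_range]
    refine Nat.lt_succ_of_le (Nat.find_min' (hex k) ?_)
    rw [Nat.div_eq_of_lt (huL k)]; exact Nat.zero_le _
  obtain ⟨h, -, hh⟩ := Finset.exists_lt_card_fiber_of_mul_lt_card_of_maps_to (n := m * m) hlevL
    (by rw [card_range]; omega)
  set F := T'.filter (fun k => lev k = h) with hF
  have hFT : ∀ k ∈ F, k ∈ T' ∧ lev k = h := by
    intro k hk
    rw [hF, mem_filter] at hk
    exact hk
  have hadj : ∀ i ∈ F, ∀ k ∈ F, i < k →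
      ((s w k i = true ∧ s k i w = true) ↔ (y k < y i ∧ y i / 2 ^ h ≤ y k / 2 ^ h)) := by
    intro i hi k hk hik
    obtain ⟨hi1, hi2⟩ := hFT i hi
    obtain ⟨hk1, hk2⟩ := hFT k hk
    have hspeck : u k / 2 ^ h ≤ y k / 2 ^ h := by
      rw [← hk2]; exact Nat.find_spec (hex k)
    have hspeci : u i / 2 ^ h ≤ y i / 2 ^ h := by
      rw [← hi2]; exact Nat.find_spec (hex i)
    constructor
    · rintro ⟨h1, h2⟩
      have h3 := hq i hi1 k hk1 hik h2
      exact ⟨(hyiff k hk1 i hi1 hik.ne').1 h1, (Nat.div_le_div_right h3).trans hspeck⟩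
    · rintro ⟨h1, h2⟩
      refine ⟨(hyiff k hk1 i hi1 hik.ne').2 h1, hq2 i hi1 k hk1 hik h1 ?_⟩
      rcases Nat.eq_zero_or_pos h with h0 | h0
      · rw [h0] at h2
        simp at h2
        omega
      · obtain ⟨g, rfl⟩ : ∃ g, h = g + 1 := ⟨h - 1, by omega⟩
        have hmink : ¬ (u k / 2 ^ g ≤ y k / 2 ^ g) :=
          Nat.find_min (hex k) (by change g < lev k; omega)
        have hmini : ¬ (u i / 2 ^ g ≤ y i / 2 ^ g) :=
          Nat.find_min (hex i) (by change g < lev i; omega)
        rw [pow_succ, ← Nat.div_div_eq_div_mul, ← Nat.div_div_eq_div_mul] at hspeck hspeci h2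
        have h3 : y i / 2 ^ g < u k / 2 ^ g := by omega
        by_contra h4
        push Not at h4
        have := Nat.div_le_div_right (c := 2 ^ g) h4.le
        omega
  set ρ : α → α → Prop := fun i k => i < k ∧ y k < y i ∧ y i / 2 ^ h ≤ y k / 2 ^ h with hρ
  have hpar : ∀ a ∈ T', ∀ b ∈ T', a < b → (s a b w ^^ (s b a w ^^ s w a b)) = true := by
    intro a _ b hb hab
    exact hs.par a b w hab (hwlt b hb)
  -- replacing the last vertex by `w`
  have hrep : ∀ a ∈ T', ∀ b ∈ T', a < b → ∀ c ∈ T, b < c →
      s a b c = s a b w ∧ s b a c = s b a w ∧ s c a b = s w a b := by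
    intro a ha b hb hab c hc hbc
    exact hinv a (mem_of_mem_erase ha) b (mem_of_mem_erase hb) hab c hc w hwT hbc (hwlt b hb)
  -- main step
  have hfin : ∀ C ⊆ F, C.card = m + 1 →
      ((∀ a ∈ C, ∀ b ∈ C, a < b → ρ a b) ∨ (∀ a ∈ C, ∀ b ∈ C, a < b → ¬ ρ a b)) →
      ∃ S ⊆ T, S.card = m + 2 ∧ ∀ i ∈ S, ∀ j ∈ S, ∀ k ∈ S, ∀ l ∈ S, i < j → j < k → k < l →
      ¬ Alt s i j k l := by
    intro C hCF hCc hC
    have hCT' : ∀ c ∈ C, c ∈ T' := fun c hc => (hFT c (hCF hc)).1
    have hwC : w ∉ C := fun hwC => absurd (hwlt w (hCT' w hwC)) (lt_irrefl _)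
    refine ⟨insert w C, ?_, by rw [card_insert_of_notMem hwC, hCc], ?_⟩
    · intro c hc
      rcases mem_insert.1 hc with rfl | hc
      · exact hwT
      · exact mem_of_mem_erase (hCT' c hc)
    · intro i hi j hj k hk l hl hij hjk hkl
      have hlT : l ∈ T := by
        rcases mem_insert.1 hl with rfl | hl
        · exact hwT
        · exact mem_of_mem_erase (hCT' l hl)
      have hlast : ∀ x ∈ insert w C, x < l → x ∈ C := by
        intro x hx hxl
        rcases mem_insert.1 hx with rfl | hx
        · exact absurd hxl (not_lt.2 (T.le_max' l hlT))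
        · exact hx
      have hkC := hlast k hk hkl
      have hjC := hlast j hj (hjk.trans hkl)
      have hiC := hlast i hi (hij.trans (hjk.trans hkl))
      have hk' := hCT' k hkC
      have hj' := hCT' j hjC
      have hi' := hCT' i hiC
      have hkT := mem_of_mem_erase hk'
      have hik := hij.trans hjk
      have hil := hik.trans hkl
      have hjl := hjk.trans hkl
      obtain ⟨e1, e2, e3⟩ := hrep i hi' j hj' hij k hkT hjk
      obtain ⟨f1, f2, f3⟩ := hrep i hi' j hj' hij l hlT hjl
      obtain ⟨g1, g2, g3⟩ := hrep i hi' k hk' hik l hlT hkl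
      obtain ⟨o1, o2, o3⟩ := hrep j hj' k hk' hjk l hlT hkl
      have c1 : chi s i j k l = s i k w := by
        simp only [chi, e1, f1, g1]
        cases s i j w <;> cases s i k w <;> rfl
      have c2 : chi s j i k l = s j k w := by
        simp only [chi, e2, f2, o1]
        cases s j i w <;> cases s j k w <;> rfl
      have c3 : chi s k i j l = (s w i j ^^ (s k j w ^^ s k i w)) := by
        simp only [chi, e3, o2, g2]
      have p1 := hpar i hi' k hk' hik
      have p2 := hpar j hj' k hk' hjk
      have aik := hadj i (hCF hiC) k (hCF hkC) hik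
      have ajk := hadj j (hCF hjC) k (hCF hkC) hjk
      have rik : (s w i k = true ↔ y i < y k) := hyiff i hi' k hk' hik.ne
      have rjk : (s w j k = true ↔ y j < y k) := hyiff j hj' k hk' hjk.ne
      have rij : (s w i j = true ↔ y i < y j) := hyiff i hi' j hj' hij.ne
      have rki : (s w k i = true ↔ y k < y i) := hyiff k hk' i hi' hik.ne'
      have rkj : (s w k j = true ↔ y k < y j) := hyiff k hk' j hj' hjk.ne'
      have nik := hs.anti w i k (hwlt i hi').ne (hwlt k hk').ne hik.ne
      have njk := hs.anti w j k (hwlt j hj').ne (hwlt k hk').ne hjk.ne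
      -- the down set property at k
      have d1 : s w i j = true → s k j w = true → s k i w = true := by
        intro h1 h2
        refine hs.trans k i j w hik.ne hjk.ne (hwlt k hk').ne' hij.ne (hwlt j hj').ne
          (hwlt i hi').ne ?_ h2
        rw [e3]; exact h1
      have d2 : s w i j = false → s k i w = true → s k j w = true := by
        intro h1 h2
        refine hs.trans k j i w hjk.ne hik.ne (hwlt k hk').ne' hij.ne' (hwlt i hi').ne
          (hwlt j hj').ne ?_ h2
        rw [hs.anti k j i hjk.ne hik.ne hij.ne', e3, h1]; rfl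
      rintro ⟨A1, A2, A3⟩
      rw [c1, c2] at A1
      rw [c2, c3] at A2
      rcases hC with hC | hC
      · have h1 := aik.2 (hC i hiC k hkC hik).2
        have h2 := ajk.2 (hC j hjC k hkC hjk).2
        rw [h1.1] at nik
        rw [h2.1] at njk
        rw [h1.2, nik] at p1
        rw [h2.2, njk] at p2
        revert p1 p2 A1
        cases s i k w <;> cases s j k w <;> simp
      · have h1 : ¬ (s w k i = true ∧ s k i w = true) := fun hcon =>
          hC i hiC k hkC hik ⟨hik, aik.1 hcon⟩
        have h2 : ¬ (s w k j = true ∧ s k j w = true) := fun hcon =>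
          hC j hjC k hkC hjk ⟨hjk, ajk.1 hcon⟩
        -- transitivity at w
        have t1 : s w i j = true → s w j k = true → s w i k = true := by
          intro h3 h4
          rw [rij] at h3; rw [rjk] at h4; rw [rik]; omega
        have t2 : s w i j = false → s w i k = true → s w j k = true := by
          intro h3 h4
          have h5 : ¬ (y i < y j) := by rw [← rij, h3]; simp
          rw [rik] at h4; rw [rjk]; omega
        revert p1 p2 A1 A2 h1 h2 t1 t2 d1 d2 nik njk
        cases s i k w <;> cases s j k w <;> cases s k i w <;> cases s k j w <;>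
          cases s w i j <;> cases s w i k <;> cases s w j k <;> cases s w k i <;>
          cases s w k j <;> simp
  rcases chain_or_antichain (ρ := ρ) (fun a b hab => hab.1)
    (fun a b c h1 h2 => ⟨h1.1.trans h2.1, h2.2.1.trans h1.2.1, h1.2.2.trans h2.2.2⟩) F m hh with
    ⟨C, hC1, hC2, hC3⟩ | ⟨C, hC1, hC2, hC3⟩
  · exact hfin C hC1 hC2 (Or.inl hC3)
  · exact hfin C hC1 hC2 (Or.inr hC3)

end H83XR
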