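import Mathlib
import Pool.Agent.H83XR.Extract

/-!
# The quantitative core theorem
-/

namespace H83XR

open Finset

variable {α : Type*} [LinearOrder α]

theorem arith (n l : ℕ) (hn : 2 ≤ n) (hl : n ≤ 2 ^ l) :
    8 * n ^ 2 * l ≤ 2 ^ (3 * l + 3) ∧
    (3 * l + 3 + 1) * ((n - 2) * (n - 2)) + 1 < 8 * n ^ 2 * l ∧
    (8 * n ^ 2 * l + 1) ^ (2 * (8 * n ^ 2 * l)) ≤ 2 ^ (96 * n ^ 2 * l ^ 2) := by
  have hl1 : 1 ≤ l := by
    by_contra h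
    have : l = 0 := by omega
    rw [this] at hl
    simp at hl
    omega
  have h2 : n ^ 2 ≤ 2 ^ l * 2 ^ l := by
    rw [pow_two]; exact Nat.mul_le_mul hl hl
  have h3 : l < 2 ^ l := Nat.lt_two_pow_self
  have hlt : 8 * n ^ 2 * l < 2 ^ (3 * l + 3) := by
    have e : 2 ^ (3 * l + 3) = 8 * (2 ^ l * 2 ^ l) * 2 ^ l := by
      rw [pow_add, pow_mul]
      have : (2 ^ 3) ^ l = 2 ^ l * 2 ^ l * 2 ^ l := by
        rw [← mul_pow, ← mul_pow]; norm_num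
      rw [this]; ring
    rw [e]
    calc 8 * n ^ 2 * l < 8 * n ^ 2 * 2 ^ l := by
          apply Nat.mul_lt_mul_of_pos_left h3; positivity
      _ ≤ 8 * (2 ^ l * 2 ^ l) * 2 ^ l := by
          apply Nat.mul_le_mul_right
          exact Nat.mul_le_mul_left 8 h2
  refine ⟨hlt.le, ?_, ?_⟩
  · obtain ⟨m, rfl⟩ : ∃ m, n = m + 2 := ⟨n - 2, by omega⟩
    simp only [Nat.add_sub_cancel]
    obtain ⟨k, rfl⟩ : ∃ k, l = k + 1 := ⟨l - 1, by omega⟩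
    nlinarith [Nat.zero_le (m * m), Nat.zero_le (k * (m * m)), Nat.zero_le (k * m)]
  · calc (8 * n ^ 2 * l + 1) ^ (2 * (8 * n ^ 2 * l))
        ≤ (2 ^ (3 * l + 3)) ^ (2 * (8 * n ^ 2 * l)) := Nat.pow_le_pow_left hlt _
      _ = 2 ^ ((3 * l + 3) * (2 * (8 * n ^ 2 * l))) := by rw [← pow_mul]
      _ ≤ 2 ^ (96 * n ^ 2 * l ^ 2) := by
          apply Nat.pow_le_pow_right (by norm_num)
          have : 3 * l + 3 ≤ 6 * l := by omega
          calc (3 * l + 3) * (2 * (8 * n ^ 2 * l)) ≤ 6 * l * (2 * (8 * n ^ 2 * l)) :=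
                Nat.mul_le_mul_right _ this
            _ = 96 * n ^ 2 * l ^ 2 := by ring

theorem core {s : α → α → α → Bool} (hs : Sys s) (n l : ℕ) (hn : 2 ≤ n) (hl : n ≤ 2 ^ l)
    (V : Finset α) (hV : 2 ^ (96 * n ^ 2 * l ^ 2) ≤ V.card) :
    ∃ S ⊆ V, S.card = n ∧ ∀ i ∈ S, ∀ j ∈ S, ∀ k ∈ S, ∀ l ∈ S, i < j → j < k → k < l →
      ¬ Alt s i j k l := by
  obtain ⟨h1, h2, h3⟩ := arith n l hn hl
  obtain ⟨Q, hQ1, hQ2, hQ3⟩ := greedy hs (8 * n ^ 2 * l) ∅ V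
    ⟨by simp, by simp⟩ (by
      rw [card_empty, zero_add]
      exact h3.trans hV)
  rw [empty_union] at hQ3
  obtain ⟨S, hS1, hS2, hS3⟩ := extract hs Q hQ3 (3 * l + 3) (n - 2) (by rw [hQ2]; exact h1)
    (by rw [hQ2]; exact h2)
  exact ⟨S, hS1.trans hQ1, by omega, hS3⟩

end H83XR
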