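import Mathlib
import Pool.Agent.H83XR.Core

/-!
# Rotation systems of complete graphs

`pos v x` is the position of the edge `vx` when the edges at the vertex `v` are listed in
counterclockwise order (read from any starting edge).
-/

namespace H83XR

open Finset

/-- The rotation at `v` passes through `x, y, z` in this cyclic order. -/
def Ccw {V : Type*} (pos : V → V → ℕ) (v x y z : V) : Prop :=
  (pos v x < pos v y ∧ pos v y < pos v z) ∨ (pos v y < pos v z ∧ pos v z < pos v x) ∨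
    (pos v z < pos v x ∧ pos v x < pos v y)

/-- `pos` is the rotation system of a complete graph: the edges at `v` have distinct positions. -/
def IsRotation {V : Type*} (pos : V → V → ℕ) : Prop :=
  ∀ v x y, x ≠ v → y ≠ v → pos v x = pos v y → x = y

/-- The rotations of the drawing of `K_4` on `a, b, c, d` in which no two edges cross, up to
reflection (each vertex sees the other three with the orientation of a tetrahedron). -/
def Uncrossed {V : Type*} (pos : V → V → ℕ) (a b c d : V) : Prop :=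
  (Ccw pos a b c d ∧ Ccw pos b a d c ∧ Ccw pos c a b d ∧ Ccw pos d a c b) ∨
  (Ccw pos a b d c ∧ Ccw pos b a c d ∧ Ccw pos c a d b ∧ Ccw pos d a b c)

/-- The rotations of the drawing of `K_4` on `a, b, c, d` in which exactly the edges `ab` and `cd`
cross, up to reflection (convex position, with cyclic order `a, c, b, d`). -/
def Crossed {V : Type*} (pos : V → V → ℕ) (a b c d : V) : Prop :=
  (Ccw pos a c b d ∧ Ccw pos c b d a ∧ Ccw pos b d a c ∧ Ccw pos d a c b) ∨
  (Ccw pos a d b c ∧ Ccw pos c a d b ∧ Ccw pos b c a d ∧ Ccw pos d b c a)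

/-- Every four vertices have the rotations of a simple drawing of `K_4`. -/
def Realizable {V : Type*} (pos : V → V → ℕ) : Prop :=
  ∀ a b c d, a ≠ b → a ≠ c → a ≠ d → b ≠ c → b ≠ d → c ≠ d →
    Uncrossed pos a b c d ∨ Crossed pos a b c d ∨ Crossed pos a c b d ∨ Crossed pos a d b c

variable {V : Type*} {pos : V → V → ℕ}

theorem Ccw.rot {v x y z : V} (h : Ccw pos v x y z) : Ccw pos v y z x := by
  unfold Ccw at *; omega

theorem ccw_rot_iff {v x y z : V} : Ccw pos v y z x ↔ Ccw pos v x y z := by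
  unfold Ccw; omega

theorem ccw_swap (hp : IsRotation pos) {v x y z : V} (hx : x ≠ v) (hy : y ≠ v) (hz : z ≠ v)
    (hxy : x ≠ y) (hyz : y ≠ z) (hxz : x ≠ z) : Ccw pos v x z y ↔ ¬ Ccw pos v x y z := by
  have h1 : pos v x ≠ pos v y := fun h => hxy (hp v x y hx hy h)
  have h2 : pos v y ≠ pos v z := fun h => hyz (hp v y z hy hz h)
  have h3 : pos v x ≠ pos v z := fun h => hxz (hp v x z hx hz h)
  unfold Ccw; omega

theorem uncrossed_iff (hp : IsRotation pos) {a b c d : V} (hab : a ≠ b) (hac : a ≠ c)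
    (had : a ≠ d) (hbc : b ≠ c) (hbd : b ≠ d) (hcd : c ≠ d) :
    Uncrossed pos a b c d ↔ ((Ccw pos a b c d ∧ ¬ Ccw pos b a c d ∧ Ccw pos c a b d ∧
      ¬ Ccw pos d a b c) ∨ (¬ Ccw pos a b c d ∧ Ccw pos b a c d ∧ ¬ Ccw pos c a b d ∧
      Ccw pos d a b c)) := by
  have e1 : Ccw pos b a d c ↔ ¬ Ccw pos b a c d := ccw_swap hp hab hbc.symm hbd.symm hac hcd had
  have e2 : Ccw pos d a c b ↔ ¬ Ccw pos d a b c := ccw_swap hp had hbd hcd hab hbc hac
  have e3 : Ccw pos a b d c ↔ ¬ Ccw pos a b c d :=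
    ccw_swap hp hab.symm hac.symm had.symm hbc hcd hbd
  have e4 : Ccw pos c a d b ↔ ¬ Ccw pos c a b d := ccw_swap hp hac hbc hcd.symm hab hbd had
  unfold Uncrossed
  rw [e1, e2, e3, e4]

theorem crossed_iff1 (hp : IsRotation pos) {a b c d : V} (hab : a ≠ b) (hac : a ≠ c)
    (had : a ≠ d) (hbc : b ≠ c) (hbd : b ≠ d) (hcd : c ≠ d) :
    Crossed pos a b c d ↔ ((¬ Ccw pos a b c d ∧ Ccw pos b a c d ∧ Ccw pos c a b d ∧
      ¬ Ccw pos d a b c) ∨ (Ccw pos a b c d ∧ ¬ Ccw pos b a c d ∧ ¬ Ccw pos c a b d ∧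
      Ccw pos d a b c)) := by
  have e1 : Ccw pos a c b d ↔ ¬ Ccw pos a b c d := by
    rw [← ccw_swap hp hab.symm hac.symm had.symm hbc hcd hbd]
    exact ccw_rot_iff.symm
  have e2 : Ccw pos b d a c ↔ Ccw pos b a c d := ccw_rot_iff.symm
  have e3 : Ccw pos c b d a ↔ Ccw pos c a b d := ccw_rot_iff
  have e4 : Ccw pos d a c b ↔ ¬ Ccw pos d a b c := ccw_swap hp had hbd hcd hab hbc hac
  have e5 : Ccw pos a d b c ↔ Ccw pos a b c d := ccw_rot_iff.symm
  have e6 : Ccw pos b c a d ↔ ¬ Ccw pos b a c d := by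
    rw [← ccw_swap hp hab hbc.symm hbd.symm hac hcd had]
    exact ccw_rot_iff.symm
  have e7 : Ccw pos c a d b ↔ ¬ Ccw pos c a b d := ccw_swap hp hac hbc hcd.symm hab hbd had
  have e8 : Ccw pos d b c a ↔ Ccw pos d a b c := ccw_rot_iff
  unfold Crossed
  rw [e1, e2, e3, e4, e5, e6, e7, e8]
  generalize Ccw pos a b c d = A
  generalize Ccw pos b a c d = B
  generalize Ccw pos c a b d = C
  generalize Ccw pos d a b c = D
  by_cases hA : A <;> by_cases hB : B <;> by_cases hC : C <;> by_cases hD : D <;>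
    simp [hA, hB, hC, hD]

end H83XR
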