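import Mathlib
import Pool.Agent.H83XR.Rot

/-!
# The theorem for rotation systems
-/

namespace H83XR

open Finset

variable {V : Type*} {pos : V → V → ℕ}

theorem crossed_iff2 (hp : IsRotation pos) {a b c d : V} (hab : a ≠ b) (hac : a ≠ c)
    (had : a ≠ d) (hbc : b ≠ c) (hbd : b ≠ d) (hcd : c ≠ d) :
    Crossed pos a c b d ↔ ((Ccw pos a b c d ∧ Ccw pos b a c d ∧ Ccw pos c a b d ∧
      Ccw pos d a b c) ∨ (¬ Ccw pos a b c d ∧ ¬ Ccw pos b a c d ∧ ¬ Ccw pos c a b d ∧
      ¬ Ccw pos d a b c)) := by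
  rw [crossed_iff1 hp hac hab had hbc.symm hcd hbd]
  have e1 : Ccw pos a c b d ↔ ¬ Ccw pos a b c d := by
    rw [← ccw_swap hp hab.symm hac.symm had.symm hbc hcd hbd]
    exact ccw_rot_iff.symm
  have e4 : Ccw pos d a c b ↔ ¬ Ccw pos d a b c := ccw_swap hp had hbd hcd hab hbc hac
  rw [e1, e4]
  generalize Ccw pos a b c d = A
  generalize Ccw pos b a c d = B
  generalize Ccw pos c a b d = C
  generalize Ccw pos d a b c = D
  by_cases hA : A <;> by_cases hB : B <;> by_cases hC : C <;> by_cases hD : D <;>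
    simp [hA, hB, hC, hD]

theorem crossed_iff3 (hp : IsRotation pos) {a b c d : V} (hab : a ≠ b) (hac : a ≠ c)
    (had : a ≠ d) (hbc : b ≠ c) (hbd : b ≠ d) (hcd : c ≠ d) :
    Crossed pos a d b c ↔ ((¬ Ccw pos a b c d ∧ ¬ Ccw pos b a c d ∧ Ccw pos c a b d ∧
      Ccw pos d a b c) ∨ (Ccw pos a b c d ∧ Ccw pos b a c d ∧ ¬ Ccw pos c a b d ∧
      ¬ Ccw pos d a b c)) := by
  rw [crossed_iff1 hp had hab hac hbd.symm hcd.symm hbc]
  have e1 : Ccw pos a d b c ↔ Ccw pos a b c d := ccw_rot_iff.symm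
  have e2 : Ccw pos b a d c ↔ ¬ Ccw pos b a c d := ccw_swap hp hab hbc.symm hbd.symm hac hcd had
  have e3 : Ccw pos c a d b ↔ ¬ Ccw pos c a b d := ccw_swap hp hac hbc hcd.symm hab hbd had
  rw [e1, e2, e3]
  generalize Ccw pos a b c d = A
  generalize Ccw pos b a c d = B
  generalize Ccw pos c a b d = C
  generalize Ccw pos d a b c = D
  by_cases hA : A <;> by_cases hB : B <;> by_cases hC : C <;> by_cases hD : D <;>
    simp [hA, hB, hC, hD]

/-- The orientations at the four vertices have even parity. -/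
theorem parity (hp : IsRotation pos) (hr : Realizable pos) {a b c d : V} (hab : a ≠ b)
    (hac : a ≠ c) (had : a ≠ d) (hbc : b ≠ c) (hbd : b ≠ d) (hcd : c ≠ d) :
    ((Ccw pos a b c d ↔ Ccw pos b a c d) ↔ (Ccw pos c a b d ↔ Ccw pos d a b c)) := by
  have h := hr a b c d hab hac had hbc hbd hcd
  rw [uncrossed_iff hp hab hac had hbc hbd hcd, crossed_iff1 hp hab hac had hbc hbd hcd,
    crossed_iff2 hp hab hac had hbc hbd hcd, crossed_iff3 hp hab hac had hbc hbd hcd] at h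
  revert h
  generalize Ccw pos a b c d = A
  generalize Ccw pos b a c d = B
  generalize Ccw pos c a b d = C
  generalize Ccw pos d a b c = D
  by_cases hA : A <;> by_cases hB : B <;> by_cases hC : C <;> by_cases hD : D <;>
    simp [hA, hB, hC, hD]

/-- The order of the other vertices around the reference vertex `o`. -/
@[reducible] noncomputable def ordAt (hp : IsRotation pos) (o : V) :
    LinearOrder {x : V // x ≠ o} :=
  LinearOrder.lift' (fun x => pos o x.1)
    (fun x y h => Subtype.ext (hp o x.1 y.1 x.2 y.2 h))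

open Classical in
/-- The order around `v` cut at the reference vertex `o`. -/
noncomputable def sgn (pos : V → V → ℕ) (o : V) (v x y : {x : V // x ≠ o}) : Bool :=
  decide (Ccw pos v.1 o x.1 y.1)

theorem sys_sgn (hp : IsRotation pos) (hr : Realizable pos) (o : V) :
    let _ := ordAt hp o
    Sys (sgn pos o) := by
  let _ := ordAt hp o
  refine ⟨?_, ?_, ?_⟩
  · intro v x y hx hy hxy
    have hx' : x.1 ≠ v.1 := fun h => hx (Subtype.ext h)
    have hy' : y.1 ≠ v.1 := fun h => hy (Subtype.ext h)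
    have hxy' : x.1 ≠ y.1 := fun h => hxy (Subtype.ext h)
    have h := ccw_swap hp (v := v.1) (x := o) (y := x.1) (z := y.1) v.2.symm hx' hy' x.2.symm hxy'
      y.2.symm
    unfold sgn
    by_cases h1 : Ccw pos v.1 o x.1 y.1
    · have h2 : ¬ Ccw pos v.1 o y.1 x.1 := fun h2 => (h.1 h2) h1
      simp [h1, h2]
    · have h2 : Ccw pos v.1 o y.1 x.1 := h.2 h1
      simp [h1, h2]
  · intro v x y z _ _ _ _ _ _ h1 h2
    simp only [sgn, decide_eq_true_iff] at *
    unfold Ccw at *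
    omega
  · intro a b c hab hbc
    have h1 : pos o a.1 < pos o b.1 := hab
    have h2 : pos o b.1 < pos o c.1 := hbc
    have hab' : a.1 ≠ b.1 := fun h => hab.ne (Subtype.ext h)
    have hbc' : b.1 ≠ c.1 := fun h => hbc.ne (Subtype.ext h)
    have hac' : a.1 ≠ c.1 := fun h => (hab.trans hbc).ne (Subtype.ext h)
    have h3 : Ccw pos o a.1 b.1 c.1 := Or.inl ⟨h1, h2⟩
    have h4 := parity hp hr (a := o) (b := a.1) (c := b.1) (d := c.1) a.2.symm b.2.symm c.2.symm
      hab' hac' hbc'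
    unfold sgn
    revert h3 h4
    generalize Ccw pos o a.1 b.1 c.1 = A
    generalize Ccw pos a.1 o b.1 c.1 = B
    generalize Ccw pos b.1 o a.1 c.1 = C
    generalize Ccw pos c.1 o a.1 b.1 = D
    by_cases hA : A <;> by_cases hB : B <;> by_cases hC : C <;> by_cases hD : D <;>
      simp [hA, hB, hC, hD]

theorem chi_sgn (hp : IsRotation pos) {o : V} {v x y z : {x : V // x ≠ o}} (hx : x ≠ v)
    (hy : y ≠ v) (hz : z ≠ v) (hxy : x ≠ y) (hyz : y ≠ z) (hxz : x ≠ z) :
    chi (sgn pos o) v x y z = true ↔ Ccw pos v.1 x.1 y.1 z.1 := by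
  have a1 : pos v.1 x.1 ≠ pos v.1 y.1 := fun h =>
    hxy (Subtype.ext (hp v.1 x.1 y.1 (fun h => hx (Subtype.ext h)) (fun h => hy (Subtype.ext h)) h))
  have a2 : pos v.1 y.1 ≠ pos v.1 z.1 := fun h =>
    hyz (Subtype.ext (hp v.1 y.1 z.1 (fun h => hy (Subtype.ext h)) (fun h => hz (Subtype.ext h)) h))
  have a3 : pos v.1 x.1 ≠ pos v.1 z.1 := fun h =>
    hxz (Subtype.ext (hp v.1 x.1 z.1 (fun h => hx (Subtype.ext h)) (fun h => hz (Subtype.ext h)) h))
  have b1 : pos v.1 o ≠ pos v.1 x.1 := fun h =>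
    x.2.symm (hp v.1 o x.1 v.2.symm (fun h => hx (Subtype.ext h)) h)
  have b2 : pos v.1 o ≠ pos v.1 y.1 := fun h =>
    y.2.symm (hp v.1 o y.1 v.2.symm (fun h => hy (Subtype.ext h)) h)
  have b3 : pos v.1 o ≠ pos v.1 z.1 := fun h =>
    z.2.symm (hp v.1 o z.1 v.2.symm (fun h => hz (Subtype.ext h)) h)
  unfold chi sgn
  by_cases h1 : Ccw pos v.1 o x.1 y.1 <;> by_cases h2 : Ccw pos v.1 o y.1 z.1 <;>
    by_cases h3 : Ccw pos v.1 o x.1 z.1 <;>
    simp only [h1, h2, h3, decide_true, decide_false, Bool.xor_true, Bool.xor_false,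
      Bool.not_true, Bool.not_false, true_iff, false_iff, Bool.false_eq_true] <;>
    unfold Ccw at * <;> omega

theorem alt_of_uncrossed (hp : IsRotation pos) {o : V} {i j k l : {x : V // x ≠ o}}
    (hij : i ≠ j) (hik : i ≠ k) (hil : i ≠ l) (hjk : j ≠ k) (hjl : j ≠ l) (hkl : k ≠ l)
    (h : Uncrossed pos i.1 j.1 k.1 l.1) : Alt (sgn pos o) i j k l := by
  have hne : ∀ {x y : {x : V // x ≠ o}}, x ≠ y → x.1 ≠ y.1 := fun h h' => h (Subtype.ext h')
  rw [uncrossed_iff hp (hne hij) (hne hik) (hne hil) (hne hjk) (hne hjl) (hne hkl),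
    ← chi_sgn hp (v := i) (x := j) (y := k) (z := l) hij.symm hik.symm hil.symm hjk hkl hjl,
    ← chi_sgn hp (v := j) (x := i) (y := k) (z := l) hij hjk.symm hjl.symm hik hkl hil,
    ← chi_sgn hp (v := k) (x := i) (y := j) (z := l) hik hjk hkl.symm hij hjl hil,
    ← chi_sgn hp (v := l) (x := i) (y := j) (z := k) hil hjl hkl hij hjk hik] at h
  unfold Alt
  revert h
  generalize chi (sgn pos o) i j k l = A
  generalize chi (sgn pos o) j i k l = B
  generalize chi (sgn pos o) k i j l = C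
  generalize chi (sgn pos o) l i j k = D
  cases A <;> cases B <;> cases C <;> cases D <;> simp

/-- A symmetric statement about four distinct elements can be checked on increasing ones. -/
theorem sort4 {β : Type*} [LinearOrder β] {P : β → β → β → β → Prop}
    (h1 : ∀ a b c d, P a b c d → P b a c d) (h2 : ∀ a b c d, P a b c d → P a c b d)
    (h3 : ∀ a b c d, P a b c d → P a b d c) (S : Finset β)
    (h : ∀ i ∈ S, ∀ j ∈ S, ∀ k ∈ S, ∀ l ∈ S, i < j → j < k → k < l → P i j k l) :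
    ∀ a ∈ S, ∀ b ∈ S, ∀ c ∈ S, ∀ d ∈ S, a ≠ b → a ≠ c → a ≠ d → b ≠ c → b ≠ d → c ≠ d →
      P a b c d := by
  have hA : ∀ a ∈ S, ∀ b ∈ S, ∀ c ∈ S, ∀ d ∈ S, b < c → c < d → a ≠ b → a ≠ c → a ≠ d →
      P a b c d := by
    intro a ha b hb c hc d hd hbc hcd hab hac had
    rcases lt_or_gt_of_ne hab with h' | h'
    · exact h a ha b hb c hc d hd h' hbc hcd
    rcases lt_or_gt_of_ne hac with h'' | h''
    · exact h1 _ _ _ _ (h b hb a ha c hc d hd h' h'' hcd)
    rcases lt_or_gt_of_ne had with h''' | h'''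
    · exact h1 _ _ _ _ (h2 _ _ _ _ (h b hb c hc a ha d hd hbc h'' h'''))
    · exact h1 _ _ _ _ (h2 _ _ _ _ (h3 _ _ _ _ (h b hb c hc d hd a ha hbc hcd h''')))
  have hB : ∀ a ∈ S, ∀ b ∈ S, ∀ c ∈ S, ∀ d ∈ S, c < d → a ≠ b → a ≠ c → a ≠ d → b ≠ c → b ≠ d →
      P a b c d := by
    intro a ha b hb c hc d hd hcd hab hac had hbc hbd
    rcases lt_or_gt_of_ne hbc with h' | h'
    · exact hA a ha b hb c hc d hd h' hcd hab hac had
    rcases lt_or_gt_of_ne hbd with h'' | h''
    · exact h2 _ _ _ _ (hA a ha c hc b hb d hd h' h'' hac hab had)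
    · exact h2 _ _ _ _ (h3 _ _ _ _ (hA a ha c hc d hd b hb hcd h'' hac had hab))
  intro a ha b hb c hc d hd hab hac had hbc hbd hcd
  rcases lt_or_gt_of_ne hcd with h' | h'
  · exact hB a ha b hb c hc d hd h' hab hac had hbc hbd
  · exact h3 _ _ _ _ (hB a ha b hb d hd c hc h' hab had hac hbd hbc)

theorem uncrossed_12 {a b c d : V} (h : Uncrossed pos a b c d) : Uncrossed pos b a c d := by
  unfold Uncrossed at *
  rcases h with ⟨h1, h2, h3, h4⟩ | ⟨h1, h2, h3, h4⟩
  · exact Or.inr ⟨h2, h1, h3.rot, h4.rot.rot⟩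
  · exact Or.inl ⟨h2, h1, h3.rot.rot, h4.rot⟩

theorem uncrossed_23 {a b c d : V} (h : Uncrossed pos a b c d) : Uncrossed pos a c b d := by
  unfold Uncrossed at *
  rcases h with ⟨h1, h2, h3, h4⟩ | ⟨h1, h2, h3, h4⟩
  · exact Or.inr ⟨h1.rot, h3, h2, h4⟩
  · exact Or.inl ⟨h1.rot.rot, h3, h2, h4⟩

theorem uncrossed_34 {a b c d : V} (h : Uncrossed pos a b c d) : Uncrossed pos a b d c := by
  unfold Uncrossed at *
  rcases h with ⟨h1, h2, h3, h4⟩ | ⟨h1, h2, h3, h4⟩
  · exact Or.inr ⟨h1, h2, h4, h3⟩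
  · exact Or.inl ⟨h1, h2, h4, h3⟩

theorem main [Fintype V] (hp : IsRotation pos) (hr : Realizable pos) (n : ℕ)
    (hV : 2 ^ (96 * n ^ 2 * Nat.clog 2 n ^ 2) < Fintype.card V) :
    ∃ S : Finset V, S.card = n ∧ ∀ a ∈ S, ∀ b ∈ S, ∀ c ∈ S, ∀ d ∈ S,
      a ≠ b → a ≠ c → a ≠ d → b ≠ c → b ≠ d → c ≠ d → ¬ Uncrossed pos a b c d := by
  classical
  have hcard : 0 < Fintype.card V := lt_of_le_of_lt (Nat.zero_le _) hV
  rcases Nat.lt_or_ge n 2 with hn | hn
  · obtain ⟨S, -, hS⟩ := Finset.exists_subset_card_eq (s := (Finset.univ : Finset V)) (n := n)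
      (by rw [Finset.card_univ]; omega)
    refine ⟨S, hS, ?_⟩
    intro a ha b hb _ _ _ _ hab
    exfalso
    have : S.card ≤ 1 := by omega
    exact hab (Finset.card_le_one.1 this a ha b hb)
  · obtain ⟨o⟩ : Nonempty V := Fintype.card_pos_iff.1 hcard
    let _ := ordAt hp o
    have hc : Fintype.card {x : V // x ≠ o} = Fintype.card V - 1 := by
      rw [Fintype.card_subtype_compl]
      simp
    obtain ⟨S, -, hS, hS2⟩ := core (sys_sgn hp hr o) n (Nat.clog 2 n) hn
      (Nat.le_pow_clog (by norm_num) n) Finset.univ (by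
        rw [Finset.card_univ, hc]
        omega)
    refine ⟨S.map (Function.Embedding.subtype _), by rw [card_map]; exact hS, ?_⟩
    have key := sort4 (P := fun a b c d : {x : V // x ≠ o} => ¬ Uncrossed pos a.1 b.1 c.1 d.1)
      (fun a b c d h h' => h (uncrossed_12 h')) (fun a b c d h h' => h (uncrossed_23 h'))
      (fun a b c d h h' => h (uncrossed_34 h')) S (by
        intro i hi j hj k hk l hl hij hjk hkl h
        have hik := hij.trans hjk
        have hjl := hjk.trans hkl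
        exact hS2 i hi j hj k hk l hl hij hjk hkl (alt_of_uncrossed hp hij.ne hik.ne
          (hik.trans hkl).ne hjk.ne hjl.ne hkl.ne h))
    intro a ha b hb c hc d hd hab hac had hbc hbd hcd
    rw [mem_map] at ha hb hc hd
    obtain ⟨a', ha', rfl⟩ := ha
    obtain ⟨b', hb', rfl⟩ := hb
    obtain ⟨c', hc', rfl⟩ := hc
    obtain ⟨d', hd', rfl⟩ := hd
    have hne : ∀ {x y : {x : V // x ≠ o}}, x.1 ≠ y.1 → x ≠ y := fun h h' => h (by rw [h'])
    exact key a' ha' b' hb' c' hc' d' hd' (hne hab) (hne hac) (hne had) (hne hbc) (hne hbd)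
      (hne hcd)

end H83XR
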