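import Mathlib
import Pool.Agent.H83XR.Extract

/-!
# Column systems: monochromatic sets

`r c a b` (for `a < b < c`) compares `a` and `b` in a linear order attached to `c`.
-/

namespace H83XR

open Finset

variable {α : Type*} [LinearOrder α]

/-- Each `c` has a linear order on the smaller elements. -/
structure ColSys (r : α → α → α → Bool) : Prop where
  anti : ∀ c x y, x < c → y < c → x ≠ y → r c x y = !r c y x
  trans : ∀ c x y z, x < c → y < c → z < c → x ≠ y → y ≠ z → x ≠ z →
    r c x y = true → r c y z = true → r c x z = true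

def ColInv (r : α → α → α → Bool) (P R : Finset α) : Prop :=
  (∀ a ∈ P, ∀ c ∈ R, a < c) ∧ ∀ a ∈ P, ∀ b ∈ P, a < b → ∀ c ∈ P ∪ R, ∀ c' ∈ P ∪ R,
    b < c → b < c' → r c a b = r c' a b

theorem colInv_step {r : α → α → α → Bool} (hr : ColSys r) {P R R2 : Finset α} {x : α}
    (h : ColInv r P R) (hxR : x ∈ R) (hR2 : ∀ c ∈ R2, c ∈ R ∧ x < c)
    (hkey : ∀ c ∈ R2, ∀ c' ∈ R2,
      (P.filter (fun a => r c a x = true)).card = (P.filter (fun a => r c' a x = true)).card) :
    ColInv r (insert x P) R2 := by
  have hPx : ∀ a ∈ P, a < x := fun a ha => h.1 a ha x hxR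
  refine ⟨?_, ?_⟩
  · intro a ha c hc
    rcases mem_insert.1 ha with rfl | ha
    · exact (hR2 c hc).2
    · exact (hPx a ha).trans (hR2 c hc).2
  · intro a ha b hb hab c hc c' hc' hbc hbc'
    have hsub : ∀ d ∈ insert x P ∪ R2, d ∈ P ∪ R := by
      intro d hd
      rcases mem_union.1 hd with hd | hd
      · rcases mem_insert.1 hd with rfl | hd
        · exact mem_union_right _ hxR
        · exact mem_union_left _ hd
      · exact mem_union_right _ (hR2 d hd).1
    rcases mem_insert.1 hb with rfl | hbP
    · have haP : a ∈ P := by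
        rcases mem_insert.1 ha with rfl | ha
        · exact absurd hab (lt_irrefl _)
        · exact ha
      have hin : ∀ d ∈ insert b P ∪ R2, b < d → d ∈ R2 := by
        intro d hd hbd
        rcases mem_union.1 hd with hd | hd
        · rcases mem_insert.1 hd with rfl | hd
          · exact absurd hbd (lt_irrefl _)
          · exact absurd hbd (not_lt.2 (hPx d hd).le)
        · exact hd
      have hc2 := hin c hc hbc
      have hc2' := hin c' hc' hbc'
      refine filter_eq_of_card (p := fun a => r c a b) (q := fun a => r c' a b)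
        (hkey c hc2 c' hc2') ?_ a haP
      intro d hd e he h1 h2 h3 h4
      have hdb := (hPx d hd).ne
      have heb := (hPx e he).ne
      have hdc := (hPx d hd).trans hbc
      have hdc' := (hPx d hd).trans hbc'
      have hec := (hPx e he).trans hbc
      have hec' := (hPx e he).trans hbc'
      have hde : d ≠ e := by
        rintro rfl
        rw [h1] at h4
        exact absurd h4 (by simp)
      have a1 : r c b e = true := by
        have := hr.anti c e b hec hbc heb
        rw [h4] at this
        simpa using this.symm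
      have a2 : r c d e = true := hr.trans c d b e hdc hbc hec hdb heb.symm hde h1 a1
      have a3 : r c' b d = true := by
        have := hr.anti c' d b hdc' hbc' hdb
        rw [h2] at this
        simpa using this.symm
      have a4 : r c' e d = true :=
        hr.trans c' e b d hec' hbc' hdc' heb hdb.symm hde.symm h3 a3
      have hcPR := hsub c hc
      have hcPR' := hsub c' hc'
      rcases lt_or_gt_of_ne hde with hlt | hgt
      · have := h.2 d hd e he hlt c hcPR c' hcPR' hec hec'
        have h5 := hr.anti c' d e hdc' hec' hde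
        rw [a4, ← this, a2] at h5
        exact absurd h5 (by simp)
      · have := h.2 e he d hd hgt c hcPR c' hcPR' hdc hdc'
        have h5 := hr.anti c d e hdc hec hde
        rw [this, a4, a2] at h5
        exact absurd h5 (by simp)
    · have haP : a ∈ P := by
        rcases mem_insert.1 ha with rfl | ha
        · exact absurd hab (not_lt.2 (hPx b hbP).le)
        · exact ha
      exact h.2 a haP b hbP hab c (hsub c hc) c' (hsub c' hc') hbc hbc'

theorem colGreedy {r : α → α → α → Bool} (hr : ColSys r) (t : ℕ) : ∀ P R : Finset α,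
    ColInv r P R → (P.card + t + 1) ^ t ≤ R.card →
    ∃ Q ⊆ R, Q.card = t ∧ ColInv r (P ∪ Q) ∅ := by
  induction t with
  | zero =>
    intro P R h _
    refine ⟨∅, empty_subset _, rfl, ?_, ?_⟩
    · simp
    · intro a ha b hb hab c hc c' hc' h1 h2
      rw [union_empty] at ha hb
      rw [union_empty, union_empty] at hc hc'
      exact h.2 a ha b hb hab c (mem_union_left _ hc) c' (mem_union_left _ hc') h1 h2
  | succ t ih =>
    intro P R h hR
    have hpos : 0 < R.card := lt_of_lt_of_le (by positivity) hR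
    have hne : R.Nonempty := card_pos.1 hpos
    set x := R.min' hne with hx
    have hxR : x ∈ R := R.min'_mem hne
    have hxlt : ∀ c ∈ R.erase x, x < c := by
      intro c hc
      rw [mem_erase] at hc
      exact lt_of_le_of_ne (R.min'_le c hc.2) (Ne.symm hc.1)
    set k := P.card with hk
    set key : α → ℕ := fun c => (P.filter (fun a => r c a x = true)).card with hkeydef
    have hmaps : ∀ c ∈ R.erase x, key c ∈ range (k + 1) := by
      intro c _
      rw [mem_range]
      exact Nat.lt_succ_of_le (card_filter_le _ _)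
    have hcard : (range (k + 1)).card * (k + 1 + t + 1) ^ t ≤ (R.erase x).card := by
      rw [card_range, card_erase_of_mem hxR]
      have h1 : (k + (t + 1) + 1) ^ (t + 1) = (k + 1 + t + 1) ^ t * (k + 1 + t + 1) := by
        rw [← pow_succ]
        congr 1; ring
      rw [h1] at hR
      have h2 : 1 ≤ (k + 1 + t + 1) ^ t := Nat.one_le_pow _ _ (by omega)
      have h4 := Nat.mul_le_mul_left ((k + 1 + t + 1) ^ t) (show (k + 1) + 1 ≤ k + 1 + t + 1 by
        omega)
      have h5 : (k + 1 + t + 1) ^ t * ((k + 1) + 1) =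
          (k + 1) * (k + 1 + t + 1) ^ t + (k + 1 + t + 1) ^ t := by ring
      omega
    obtain ⟨kk, -, hkk⟩ := Finset.exists_le_card_fiber_of_mul_le_card_of_maps_to hmaps
      (by simp) hcard
    set R2 := (R.erase x).filter (fun c => key c = kk) with hR2def
    have hR2 : ∀ c ∈ R2, c ∈ R ∧ x < c := by
      intro c hc
      rw [hR2def, mem_filter] at hc
      exact ⟨mem_of_mem_erase hc.1, hxlt c hc.1⟩
    have hInv : ColInv r (insert x P) R2 := by
      refine colInv_step hr h hxR hR2 ?_
      intro c hc c' hc'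
      rw [hR2def, mem_filter] at hc hc'
      have h1 : key c = key c' := by rw [hc.2, hc'.2]
      exact h1
    have hxP : x ∉ P := fun hxP => lt_irrefl _ (h.1 x hxP x hxR)
    obtain ⟨Q, hQ1, hQ2, hQ3⟩ := ih (insert x P) R2 hInv (by
      rw [card_insert_of_notMem hxP]
      exact hkk)
    have hxQ : x ∉ Q := fun hxQ => lt_irrefl _ (hR2 x (hQ1 hxQ)).2
    refine ⟨insert x Q, ?_, ?_, ?_⟩
    · intro c hc
      rcases mem_insert.1 hc with rfl | hc
      · exact hxR
      · exact (hR2 c (hQ1 hc)).1
    · rw [card_insert_of_notMem hxQ, hQ2]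
    · rw [union_insert, ← insert_union]
      exact hQ3

/-- Monochromatic sets in column systems. -/
theorem colMain {r : α → α → α → Bool} (hr : ColSys r) (n : ℕ) (hn : 2 ≤ n) (V : Finset α)
    (hV : n ^ (2 * n ^ 2) ≤ V.card) :
    ∃ S ⊆ V, S.card = n ∧ ∃ e : Bool, ∀ i ∈ S, ∀ j ∈ S, ∀ k ∈ S, i < j → j < k →
      r k i j = e := by
  obtain ⟨m, rfl⟩ : ∃ m, n = m + 2 := ⟨n - 2, by omega⟩
  have hbd : (m * m + 2 + 1) ^ (m * m + 2) ≤ (m + 2) ^ (2 * (m + 2) ^ 2) := by
    rw [pow_mul]
    calc (m * m + 2 + 1) ^ (m * m + 2) ≤ ((m + 2) ^ 2) ^ (m * m + 2) :=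
          Nat.pow_le_pow_left (by nlinarith) _
      _ ≤ ((m + 2) ^ 2) ^ ((m + 2) ^ 2) :=
          Nat.pow_le_pow_right (by positivity) (by nlinarith)
  obtain ⟨T, hTV, hTc, hT⟩ := colGreedy hr (m * m + 2) ∅ V ⟨by simp, by simp⟩ (by
    rw [card_empty, zero_add]
    exact hbd.trans hV)
  rw [empty_union] at hT
  have hne : T.Nonempty := card_pos.1 (by omega)
  set w := T.max' hne with hw
  have hwT : w ∈ T := T.max'_mem hne
  have hwlt : ∀ c ∈ T.erase w, c < w := by
    intro c hc
    rw [mem_erase] at hc
    exact lt_of_le_of_ne (T.le_max' c hc.2) hc.1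
  have hT'card : (T.erase w).card + 1 = T.card := card_erase_add_one hwT
  -- the order at w
  have hfin : ∀ C ⊆ T.erase w, C.card = m + 1 → ∀ e : Bool,
      (∀ a ∈ C, ∀ b ∈ C, a < b → r w a b = e) → ∃ S ⊆ V, S.card = m + 2 ∧ ∃ e : Bool,
      ∀ i ∈ S, ∀ j ∈ S, ∀ k ∈ S, i < j → j < k → r k i j = e := by
    intro C hC hCc e he
    have hwC : w ∉ C := fun hwC => absurd (hwlt w (hC hwC)) (lt_irrefl _)
    have hins : insert w C ⊆ T := by
      intro c hc
      rcases mem_insert.1 hc with rfl | hc
      · exact hwT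
      · exact mem_of_mem_erase (hC hc)
    refine ⟨insert w C, hins.trans hTV, by rw [card_insert_of_notMem hwC, hCc], e, ?_⟩
    intro i hi j hj k hk hij hjk
    have hkT := hins hk
    have hlast : ∀ x ∈ insert w C, x < k → x ∈ C := by
      intro x hx hxl
      rcases mem_insert.1 hx with rfl | hx
      · exact absurd hxl (not_lt.2 (T.le_max' k hkT))
      · exact hx
    have hjC := hlast j hj hjk
    have hiC := hlast i hi (hij.trans hjk)
    rw [← he i hiC j hjC hij]
    exact hT.2 i (hins hi) j (hins hj) hij k (mem_union_left _ hkT) w (mem_union_left _ hwT) hjk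
      (hwlt j (hC hjC))
  -- a transitive relation
  have htr : ∀ a b c, (a ∈ T.erase w ∧ b ∈ T.erase w ∧ a < b ∧ r w a b = true) →
      (b ∈ T.erase w ∧ c ∈ T.erase w ∧ b < c ∧ r w b c = true) →
      (a ∈ T.erase w ∧ c ∈ T.erase w ∧ a < c ∧ r w a c = true) := by
    rintro a b c ⟨h1, h2, h3, h4⟩ ⟨_, h6, h7, h8⟩
    exact ⟨h1, h6, h3.trans h7, hr.trans w a b c (hwlt a h1) (hwlt b h2) (hwlt c h6) h3.ne h7.ne
      (h3.trans h7).ne h4 h8⟩
  rcases chain_or_antichain (ρ := fun a b => a ∈ T.erase w ∧ b ∈ T.erase w ∧ a < b ∧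
    r w a b = true) (fun a b hab => hab.2.2.1) htr (T.erase w) m (by omega) with
    ⟨C, hC1, hC2, hC3⟩ | ⟨C, hC1, hC2, hC3⟩
  · exact hfin C hC1 hC2 true (fun a ha b hb hab => (hC3 a ha b hb hab).2.2.2)
  · refine hfin C hC1 hC2 false ?_
    intro a ha b hb hab
    have := hC3 a ha b hb hab
    cases h : r w a b
    · rfl
    · exact absurd ⟨hC1 ha, hC1 hb, hab, h⟩ this

end H83XR
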