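import Mathlib
import Pool.Agent.H83XR.Col

/-!
# x-monotone drawings of complete graphs
-/

namespace H83XR

open Finset

/-- An x-monotone drawing of the complete graph on `N` vertices. The vertices are the points
`(x i, y i)`, numbered from left to right; for `i < j` the edge `ij` is the graph of the continuous
function `f i j` over the interval `[x i, x j]`. Edges pass through no vertex except their
endpoints, and two edges with a common endpoint have no other common point. (Nothing is required
of two edges without a common endpoint, so all simple x-monotone drawings are included.) -/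
structure MonoDrawing (N : ℕ) where
  x : Fin N → ℝ
  y : Fin N → ℝ
  f : Fin N → Fin N → ℝ → ℝ
  x_mono : StrictMono x
  cont : ∀ i j, i < j → ContinuousOn (f i j) (Set.Icc (x i) (x j))
  left_end : ∀ i j, i < j → f i j (x i) = y i
  right_end : ∀ i j, i < j → f i j (x j) = y j
  vertex : ∀ i k j, i < k → k < j → f i j (x k) ≠ y k
  left : ∀ i j k, i < j → j < k → ∀ t ∈ Set.Ioc (x i) (x j), f i j t ≠ f i k t
  right : ∀ i j k, i < j → j < k → ∀ t ∈ Set.Ico (x j) (x k), f i k t ≠ f j k t

variable {N : ℕ}

/-- The vertex `j` lies above the edge `ik` (for `i < j < k`). -/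
def MonoDrawing.Above (D : MonoDrawing N) (i j k : Fin N) : Prop := D.f i k (D.x j) < D.y j

/-- The vertex `j` lies below the edge `ik` (for `i < j < k`). -/
def MonoDrawing.Below (D : MonoDrawing N) (i j k : Fin N) : Prop := D.y j < D.f i k (D.x j)

/-- The edges `ij` and `kl` have a common point. -/
def MonoDrawing.Meet (D : MonoDrawing N) (i j k l : Fin N) : Prop :=
  ∃ t ∈ Set.Icc (D.x i) (D.x j) ∩ Set.Icc (D.x k) (D.x l), D.f i j t = D.f k l t

theorem sign_const {g h : ℝ → ℝ} {p q : ℝ} (hpq : p ≤ q) (hg : ContinuousOn g (Set.Icc p q))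
    (hh : ContinuousOn h (Set.Icc p q)) (hne : ∀ t ∈ Set.Icc p q, g t ≠ h t) :
    (g p < h p ↔ g q < h q) := by
  have hc : ContinuousOn (fun t => h t - g t) (Set.Icc p q) := hh.sub hg
  constructor
  · intro h1
    by_contra h2
    push Not at h2
    have := intermediate_value_Icc' hpq hc
    obtain ⟨t, ht, ht2⟩ := this (show (0 : ℝ) ∈ Set.Icc (h q - g q) (h p - g p) from
      ⟨by linarith, by linarith⟩)
    exact hne t ht (by simp only at ht2; linarith)
  · intro h1
    by_contra h2
    push Not at h2
    have := intermediate_value_Icc hpq hc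
    obtain ⟨t, ht, ht2⟩ := this (show (0 : ℝ) ∈ Set.Icc (h p - g p) (h q - g q) from
      ⟨by linarith, by linarith⟩)
    exact hne t ht (by simp only at ht2; linarith)

open Classical in
/-- The order of the edges `ac` and `bc` near their right endpoint `c`. -/
noncomputable def MonoDrawing.col (D : MonoDrawing N) (c a b : Fin N) : Bool :=
  decide (D.f b c (D.x (max a b)) < D.f a c (D.x (max a b)))

theorem MonoDrawing.right_ne (D : MonoDrawing N) {v a b : Fin N} (ha : a < v) (hb : b < v)
    (hab : a ≠ b) {t : ℝ} (ht1 : D.x (max a b) ≤ t) (ht2 : t < D.x v) :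
    D.f a v t ≠ D.f b v t := by
  rcases lt_or_gt_of_ne hab with h | h
  · rw [max_eq_right h.le] at ht1
    exact D.right a b v h hb t ⟨ht1, ht2⟩
  · rw [max_eq_left h.le] at ht1
    exact (D.right b a v h ha t ⟨ht1, ht2⟩).symm

theorem MonoDrawing.right_const (D : MonoDrawing N) {v a b : Fin N} (ha : a < v) (hb : b < v)
    (hab : a ≠ b) {t : ℝ} (ht1 : D.x (max a b) ≤ t) (ht2 : t < D.x v) :
    (D.f a v (D.x (max a b)) < D.f b v (D.x (max a b)) ↔ D.f a v t < D.f b v t) := by
  have h1 : D.x a ≤ D.x (max a b) := D.x_mono.monotone (le_max_left _ _)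
  have h2 : D.x b ≤ D.x (max a b) := D.x_mono.monotone (le_max_right _ _)
  refine sign_const ht1 ((D.cont a v ha).mono ?_) ((D.cont b v hb).mono ?_) ?_
  · intro s hs; exact ⟨h1.trans hs.1, hs.2.trans ht2.le⟩
  · intro s hs; exact ⟨h2.trans hs.1, hs.2.trans ht2.le⟩
  · intro s hs
    exact D.right_ne ha hb hab hs.1 (hs.2.trans_lt ht2)

theorem MonoDrawing.col_iff (D : MonoDrawing N) {v a b : Fin N} :
    D.col v a b = true ↔ D.f b v (D.x (max a b)) < D.f a v (D.x (max a b)) := by
  simp [MonoDrawing.col]

theorem bool_anti {p q : Bool} (h : p = true ↔ ¬ (q = true)) : p = !q := by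
  cases p <;> cases q <;> simp at h <;> rfl

theorem MonoDrawing.colSys (D : MonoDrawing N) : ColSys D.col := by
  refine ⟨?_, ?_⟩
  · intro v a b ha hb hab
    apply bool_anti
    rw [D.col_iff, D.col_iff, max_comm b a]
    have := D.right_ne ha hb hab le_rfl (D.x_mono (max_lt ha hb))
    constructor
    · intro h3; exact not_lt.2 h3.le
    · intro h3; exact lt_of_le_of_ne (not_lt.1 h3) this.symm
  · intro v a b c ha' hb' hc' hab hbc hac h1 h2
    rw [D.col_iff] at h1 h2 ⊢
    have hlt : D.x (max a (max b c)) < D.x v := D.x_mono (max_lt ha' (max_lt hb' hc'))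
    have k1 : D.x (max b a) ≤ D.x (max a (max b c)) := D.x_mono.monotone
      (max_le ((le_max_left _ _).trans (le_max_right _ _)) (le_max_left _ _))
    have k2 : D.x (max c b) ≤ D.x (max a (max b c)) := D.x_mono.monotone
      (max_le ((le_max_right _ _).trans (le_max_right _ _))
        ((le_max_left _ _).trans (le_max_right _ _)))
    have k3 : D.x (max c a) ≤ D.x (max a (max b c)) := D.x_mono.monotone
      (max_le ((le_max_right _ _).trans (le_max_right _ _)) (le_max_left _ _))
    rw [max_comm] at h1 h2 ⊢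
    rw [D.right_const hb' ha' hab.symm k1 hlt] at h1
    rw [D.right_const hc' hb' hbc.symm k2 hlt] at h2
    rw [D.right_const hc' ha' hac.symm k3 hlt]
    exact h2.trans h1

theorem MonoDrawing.col_eq (D : MonoDrawing N) {i j k : Fin N} (hij : i < j) (hjk : j < k) :
    D.col k i j = true ↔ D.Below i j k := by
  rw [D.col_iff, max_eq_right hij.le, D.left_end j k hjk]
  rfl

theorem MonoDrawing.meet (D : MonoDrawing N) {i j k l : Fin N} (hij : i < j) (hjk : j < k)
    (hkl : k < l) (h : D.Below i j k ↔ D.Below j k l) : D.Meet i k j l := by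
  by_contra hcon
  have hik := hij.trans hjk
  have hjl := hjk.trans hkl
  have xij := D.x_mono hij
  have xjk := D.x_mono hjk
  have xkl := D.x_mono hkl
  have s1 := sign_const (g := D.f i k) (h := D.f j l) xjk.le
    ((D.cont i k hik).mono (fun t ht => ⟨xij.le.trans ht.1, ht.2⟩))
    ((D.cont j l hjl).mono (fun t ht => ⟨ht.1, ht.2.trans xkl.le⟩))
    (fun t ht h => hcon ⟨t, ⟨⟨xij.le.trans ht.1, ht.2⟩, ⟨ht.1, ht.2.trans xkl.le⟩⟩, h⟩)
  rw [D.left_end j l hjl, D.right_end i k hik] at s1
  have h1 : D.Below j k l ↔ ¬ D.Below i j k := by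
    unfold MonoDrawing.Below
    rw [← s1]
    constructor
    · intro h; exact not_lt.2 h.le
    · intro h; exact lt_of_le_of_ne (not_lt.1 h) (D.vertex i j k hij hjk)
  tauto

theorem MonoDrawing.main (D : MonoDrawing N) (n : ℕ) (hN : n ^ (2 * n ^ 2) ≤ N) :
    ∃ S : Finset (Fin N), S.card = n ∧
      ((∀ i ∈ S, ∀ j ∈ S, ∀ k ∈ S, i < j → j < k → D.Above i j k) ∨
        (∀ i ∈ S, ∀ j ∈ S, ∀ k ∈ S, i < j → j < k → D.Below i j k)) ∧
      ∀ i ∈ S, ∀ j ∈ S, ∀ k ∈ S, ∀ l ∈ S, i < j → j < k → k < l → D.Meet i k j l := by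
  rcases Nat.lt_or_ge n 2 with hn | hn
  · have hN1 : n ≤ N := by
      rcases Nat.eq_zero_or_pos n with h | h
      · omega
      · have : n = 1 := by omega
        subst this
        simpa using hN
    obtain ⟨S, -, hS⟩ := Finset.exists_subset_card_eq (s := (Finset.univ : Finset (Fin N)))
      (n := n) (by rw [Finset.card_univ, Fintype.card_fin]; exact hN1)
    have hS1 : S.card ≤ 1 := by omega
    refine ⟨S, hS, Or.inl ?_, ?_⟩
    · intro a ha b hb _ _ hab
      exact absurd (Finset.card_le_one.1 hS1 a ha b hb) hab.ne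
    · intro a ha b hb _ _ _ _ hab
      exact absurd (Finset.card_le_one.1 hS1 a ha b hb) hab.ne
  · obtain ⟨S, -, hS, e, hS2⟩ := colMain D.colSys n hn Finset.univ (by
      rw [Finset.card_univ, Fintype.card_fin]; exact hN)
    refine ⟨S, hS, ?_, ?_⟩
    · cases e with
      | true =>
        right
        intro i hi j hj k hk hij hjk
        exact (D.col_eq hij hjk).1 (hS2 i hi j hj k hk hij hjk)
      | false =>
        left
        intro i hi j hj k hk hij hjk
        have h1 : ¬ D.Below i j k := by
          rw [← D.col_eq hij hjk, hS2 i hi j hj k hk hij hjk]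
          simp
        exact lt_of_le_of_ne (not_lt.1 h1) (D.vertex i j k hij hjk)
    · intro i hi j hj k hk l hl hij hjk hkl
      refine D.meet hij hjk hkl ?_
      rw [← D.col_eq hij hjk, ← D.col_eq hjk hkl, hS2 i hi j hj k hk hij hjk,
        hS2 j hj k hk l hl hjk hkl]

end H83XR
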